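import Mathlib

set_option autoImplicit false

namespace Pool.Agent.Results.MP_091ced_gt.SecondDerivedClosed

/-- The derived set of `A`: all points `x` in the closure of `A` without `x`. -/
def derived {X : Type*} [TopologicalSpace X] (A : Set X) : Set X :=
  {x | x ∈ closure (A \ {x})}

lemma mem_derived {X : Type*} [TopologicalSpace X] {A : Set X} {x : X} :
    x ∈ derived A ↔ ∀ U : Set X, IsOpen U → x ∈ U → ∃ y ∈ U, y ∈ A ∧ y ≠ x := by
  show x ∈ closure (A \ {x}) ↔ _
  rw [mem_closure_iff]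
  constructor
  · intro h U hU hx
    obtain ⟨y, hyU, hyA, hyx⟩ := h U hU hx
    exact ⟨y, hyU, hyA, hyx⟩
  · intro h U hU hx
    obtain ⟨y, hyU, hyA, hyx⟩ := h U hU hx
    exact ⟨y, hyU, hyA, hyx⟩

/-- In a `T₀`-space the second derived set of every set is closed. -/
theorem result (X : Type*) [TopologicalSpace X] [T0Space X] (A : Set X) :
    IsClosed (derived (derived A)) := by
  rw [← closure_subset_iff_isClosed]
  intro p hp
  by_contra hpn
  rw [mem_derived] at hpn
  push Not at hpn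
  obtain ⟨U, hU, hpU, hUB⟩ := hpn
  rw [mem_closure_iff] at hp
  obtain ⟨q, hqU, hq⟩ := hp U hU hpU
  -- `q` is an accumulation point of the derived set, inside `U`
  rw [mem_derived] at hq
  have key : ∀ V : Set X, IsOpen V → q ∈ V → p ∈ V ∧ p ∈ derived A := by
    intro V hV hqV
    obtain ⟨y, ⟨hyV, hyU⟩, hyB, _⟩ := hq (V ∩ U) (hV.inter hU) ⟨hqV, hqU⟩
    have : y = p := hUB y hyU hyB
    subst this
    exact ⟨hyV, hyB⟩
  have hpB : p ∈ derived A := (key U hU hqU).2
  have hqp : q ≠ p := by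
    rintro rfl
    obtain ⟨y, hyU, hyB, hyne⟩ := hq U hU hqU
    exact hyne (hUB y hyU hyB)
  have hqB : q ∉ derived A := fun h => hqp (hUB q hqU h)
  rw [mem_derived] at hqB
  push Not at hqB
  obtain ⟨V, hV, hqV, hVA⟩ := hqB
  have hpV : p ∈ V := (key V hV hqV).1
  rw [mem_derived] at hpB
  have key2 : ∀ W : Set X, IsOpen W → p ∈ W → q ∈ W := by
    intro W hW hpW
    obtain ⟨y, ⟨hyW, hyV⟩, hyA, _⟩ := hpB (W ∩ V) (hW.inter hV) ⟨hpW, hpV⟩
    have : y = q := hVA y hyV hyA
    rwa [← this]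
  have hins : Inseparable q p := by
    rw [inseparable_iff_forall_isOpen]
    intro W hW
    exact ⟨fun h => (key W hW h).1, fun h => key2 W hW h⟩
  exact hqp hins.eq

end Pool.Agent.Results.MP_091ced_gt.SecondDerivedClosed
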